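import Pool.Agent.Helper61.LE.Ker

open MeasureTheory Set Filter Topology

noncomputable section

namespace LEP.Ker

lemma s2_sqrt (q : ℝ) (hq : 1 / 2 ≤ q) : √q ≤ 2 * q := by
  rw [Real.sqrt_le_left (by linarith)]
  nlinarith

lemma s2_mp (i : Fin 2) : mp i = (mm i : ℝ) - 1 / 200 := rfl

/-- first weight -/
lemma s2_w1 (X Y : ℝ) (hX : 0 < X) (hY : 0 < Y) (m : ℕ) (hm : 3 ≤ m) (m' : ℝ)
    (hm' : m' = (m : ℝ) - 1 / 200) :
    (min X Y / max X Y) ^ m * Y ^ (-m') ≤ X ^ (-m') * (min 1 (X / Y)) ^ 3 := by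
  have hm3 : (3 : ℝ) ≤ m := by exact_mod_cast hm
  have hm'0 : 0 < m' := by rw [hm']; linarith
  rcases le_total Y X with h | h
  · rw [min_eq_right h, max_eq_left h, min_eq_left ((one_le_div hY).mpr h), one_pow, mul_one]
    obtain ⟨t, ht⟩ : ∃ t, t = Y / X := ⟨_, rfl⟩
    have ht0 : 0 < t := by rw [ht]; positivity
    have ht1 : t ≤ 1 := by rw [ht]; exact (div_le_one hX).mpr h
    have hYt : Y = t * X := by rw [ht]; field_simp
    rw [← ht, hYt, Real.mul_rpow ht0.le hX.le, ← mul_assoc, ← Real.rpow_natCast t m,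
      ← Real.rpow_add ht0]
    have h1 : t ^ ((m : ℝ) + -m') ≤ 1 := Real.rpow_le_one ht0.le ht1 (by rw [hm']; linarith)
    have h2 : 0 < X ^ (-m') := Real.rpow_pos_of_pos hX _
    calc t ^ ((m : ℝ) + -m') * X ^ (-m') ≤ 1 * X ^ (-m') := mul_le_mul_of_nonneg_right h1 h2.le
      _ = X ^ (-m') := one_mul _
  · rw [min_eq_left h, max_eq_right h, min_eq_right ((div_le_one hY).mpr h)]
    have h1 : Y ^ (-m') ≤ X ^ (-m') := Real.rpow_le_rpow_of_nonpos hX h (by linarith)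
    have h2 : (X / Y) ^ m ≤ (X / Y) ^ 3 :=
      pow_le_pow_of_le_one (by positivity) ((div_le_one hY).mpr h) hm
    rw [mul_comm]
    exact mul_le_mul h1 h2 (by positivity) (Real.rpow_pos_of_pos hX _).le

/-- second weight -/
lemma s2_w2 (X Y : ℝ) (hX : 0 < X) (hY : 0 < Y) (m : ℕ) :
    (min X Y / max X Y) ^ m * Y ^ m ≤ X ^ m := by
  rw [← mul_pow]
  apply pow_le_pow_left₀
  · have : 0 < min X Y := lt_min hX hY
    have : 0 < max X Y := lt_max_of_lt_left hX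
    positivity
  · rcases le_total Y X with h | h
    · rw [min_eq_right h, max_eq_left h, div_mul_eq_mul_div, div_le_iff₀ hX]
      exact mul_le_mul h h hY.le hX.le
    · rw [min_eq_left h, max_eq_right h, div_mul_cancel₀ _ hY.ne']

theorem st_S2 (h0 : ST_SEC0) : ST_S2 := by
  obtain ⟨C, hC, hpt⟩ := pt h0
  have hCG := CG_nonneg
  constructor
  · refine ⟨200 * C * CG + 1, by positivity, ?_⟩
    intro i x hx
    have hx0 : 0 < ‖x‖ := norm_pos_iff.mpr hx.1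
    obtain ⟨k1, k2⟩ := ker x ‖x‖ hx0
    have hG1 : ∀ z : ℂ, 0 ≤ G (‖z - x‖ / ‖x‖) := fun z => G_nonneg (by positivity)
    have hw : 0 < ‖x‖ ^ (-mp i) := Real.rpow_pos_of_pos hx0 _
    obtain ⟨A, hA⟩ : ∃ A, A = 200 * C * ‖x‖ ^ (-mp i) := ⟨_, rfl⟩
    have hA0 : 0 ≤ A := by rw [hA]; positivity
    have hmain := int_le (Arm i) (meas_Arm i) (fun y => GA i x y * ‖y‖ ^ (-mp i))
      (fun z => A * G (‖z - x‖ / ‖x‖)) ?_ ?_ ?_ (k1.const_mul A) ?_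
    · refine ⟨hmain.1, hmain.2.trans ?_⟩
      rw [integral_const_mul, k2, hA]
      have e1 : ‖x‖ ^ (2 - mp i) = ‖x‖ ^ 2 * ‖x‖ ^ (-mp i) := by
        rw [sub_eq_add_neg, Real.rpow_add hx0, Real.rpow_two]
      rw [e1]
      have h1 : 0 ≤ ‖x‖ ^ 2 * ‖x‖ ^ (-mp i) := by positivity
      calc 200 * C * ‖x‖ ^ (-mp i) * (‖x‖ ^ 2 * CG) =
          (200 * C * CG) * (‖x‖ ^ 2 * ‖x‖ ^ (-mp i)) := by ring
        _ ≤ (200 * C * CG + 1) * (‖x‖ ^ 2 * ‖x‖ ^ (-mp i)) :=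
          mul_le_mul_of_nonneg_right (by linarith) h1
    · have h1 : Measurable (fun z : ℂ => ‖z‖ ^ (-mp i)) := measurable_norm.pow_const _
      exact ((meas_GA i x).mul h1).aestronglyMeasurable
    · intro z hz
      exact mul_nonneg (h0.2.2.1 i x hx z hz).1 (Real.rpow_nonneg (norm_nonneg _) _)
    · intro z hz
      have hz0 : 0 < ‖z‖ := norm_pos_iff.mpr hz.1
      by_cases hzx : z = x
      · have : GA i x z * ‖z‖ ^ (-mp i) = 0 := by rw [hzx, GA_self, zero_mul]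
        simp only [this]
        exact mul_nonneg hA0 (hG1 z)
      have b1 := hpt i x hx z hz (Ne.symm hzx)
      have m1 := maj x z ‖x‖ hx0 le_rfl hzx
      have hδ1 : 0 < ‖x - z‖ := norm_pos_iff.mpr (sub_ne_zero.mpr (Ne.symm hzx))
      have hMx : 0 < max ‖x‖ ‖z‖ := lt_max_of_lt_left hx0
      have hδM : ‖x - z‖ ≤ 2 * max ‖x‖ ‖z‖ := by
        have := norm_sub_le x z
        linarith [le_max_left ‖x‖ ‖z‖, le_max_right ‖x‖ ‖z‖]
      have hq := s2_sqrt (max ‖x‖ ‖z‖ / ‖x - z‖) (by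
        rw [le_div_iff₀ hδ1]
        linarith)
      have hw1 := s2_w1 ‖x‖ ‖z‖ hx0 hz0 (mm i) (mm_three i) (mp i) (s2_mp i)
      have hz1 : 0 < ‖z‖ ^ (-mp i) := Real.rpow_pos_of_pos hz0 _
      calc GA i x z * ‖z‖ ^ (-mp i) ≤
          (C * (min ‖x‖ ‖z‖ / max ‖x‖ ‖z‖) ^ mm i * √(max ‖x‖ ‖z‖ / ‖x - z‖)) *
            ‖z‖ ^ (-mp i) := mul_le_mul_of_nonneg_right b1 hz1.le
        _ = C * ((min ‖x‖ ‖z‖ / max ‖x‖ ‖z‖) ^ mm i * ‖z‖ ^ (-mp i)) *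
            √(max ‖x‖ ‖z‖ / ‖x - z‖) := by ring
        _ ≤ C * (‖x‖ ^ (-mp i) * (min 1 (‖x‖ / ‖z‖)) ^ 3) *
            (2 * (max ‖x‖ ‖z‖ / ‖x - z‖)) :=
          mul_le_mul (mul_le_mul_of_nonneg_left hw1 hC.le) hq (Real.sqrt_nonneg _)
            (by positivity)
        _ = 2 * C * ‖x‖ ^ (-mp i) * ((min 1 (‖x‖ / ‖z‖)) ^ 3 *
            (max ‖x‖ ‖z‖ / ‖x - z‖)) := by ring
        _ ≤ 2 * C * ‖x‖ ^ (-mp i) * (100 * G (‖z - x‖ / ‖x‖)) :=
          mul_le_mul_of_nonneg_left m1 (by positivity)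
        _ = A * G (‖z - x‖ / ‖x‖) := by rw [hA]; ring
    · intro z
      exact mul_nonneg hA0 (hG1 z)
  · refine ⟨32 * C * CG + 1, by positivity, ?_⟩
    intro i x hx R hR
    have hx0 : 0 < ‖x‖ := norm_pos_iff.mpr hx.1
    obtain ⟨a, ha⟩ : ∃ a, a = max ‖x‖ R := ⟨_, rfl⟩
    have hxa : ‖x‖ ≤ a := by rw [ha]; exact le_max_left _ _
    have hRa : R ≤ a := by rw [ha]; exact le_max_right _ _
    have ha0 : 0 < a := lt_of_lt_of_le hx0 hxa
    have ha2 : a ^ 2 ≤ ‖x‖ ^ 2 + R ^ 2 := by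
      rcases le_total ‖x‖ R with h | h
      · rw [ha, max_eq_right h]; nlinarith
      · rw [ha, max_eq_left h]; nlinarith
    obtain ⟨k1, k2⟩ := ker x a ha0
    have hG1 : ∀ z : ℂ, 0 ≤ G (‖z - x‖ / a) := fun z => G_nonneg (by positivity)
    obtain ⟨A, hA⟩ : ∃ A, A = 32 * C * ‖x‖ ^ mm i := ⟨_, rfl⟩
    have hA0 : 0 ≤ A := by rw [hA]; positivity
    have hmain := int_le (ArmR i R) (meas_ArmR i R) (fun y => GA i x y * ‖y‖ ^ mm i)
      (fun z => A * G (‖z - x‖ / a)) ?_ ?_ ?_ (k1.const_mul A) ?_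
    · refine ⟨hmain.1, hmain.2.trans ?_⟩
      rw [integral_const_mul, k2, hA]
      have h1 : 0 ≤ ‖x‖ ^ mm i * (‖x‖ ^ 2 + R ^ 2) := by positivity
      have h2 : 0 ≤ 32 * C * CG * ‖x‖ ^ mm i := by positivity
      calc 32 * C * ‖x‖ ^ mm i * (a ^ 2 * CG) = 32 * C * CG * ‖x‖ ^ mm i * a ^ 2 := by ring
        _ ≤ 32 * C * CG * ‖x‖ ^ mm i * (‖x‖ ^ 2 + R ^ 2) := mul_le_mul_of_nonneg_left ha2 h2
        _ = 32 * C * CG * (‖x‖ ^ mm i * (‖x‖ ^ 2 + R ^ 2)) := by ring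
        _ ≤ (32 * C * CG + 1) * (‖x‖ ^ mm i * (‖x‖ ^ 2 + R ^ 2)) :=
          mul_le_mul_of_nonneg_right (by linarith) h1
        _ = (32 * C * CG + 1) * ‖x‖ ^ mm i * (‖x‖ ^ 2 + R ^ 2) := by ring
    · have h1 : Measurable (fun z : ℂ => ‖z‖ ^ mm i) := measurable_norm.pow_const _
      exact ((meas_GA i x).mul h1).aestronglyMeasurable
    · intro z hz
      exact mul_nonneg (h0.2.2.1 i x hx z hz.1).1 (by positivity)
    · intro z hz
      have hz0 : 0 < ‖z‖ := norm_pos_iff.mpr hz.1.1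
      have hzR : ‖z‖ < R := hz.2
      by_cases hzx : z = x
      · have : GA i x z * ‖z‖ ^ mm i = 0 := by rw [hzx, GA_self, zero_mul]
        simp only [this]
        exact mul_nonneg hA0 (hG1 z)
      have b1 := hpt i x hx z hz.1 (Ne.symm hzx)
      have hδ1 : 0 < ‖x - z‖ := norm_pos_iff.mpr (sub_ne_zero.mpr (Ne.symm hzx))
      have hMx : 0 < max ‖x‖ ‖z‖ := lt_max_of_lt_left hx0
      have hδM : ‖x - z‖ ≤ 2 * max ‖x‖ ‖z‖ := by
        have := norm_sub_le x z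
        linarith [le_max_left ‖x‖ ‖z‖, le_max_right ‖x‖ ‖z‖]
      have hMa : max ‖x‖ ‖z‖ ≤ a := max_le hxa (by linarith)
      have hq := s2_sqrt (max ‖x‖ ‖z‖ / ‖x - z‖) (by
        rw [le_div_iff₀ hδ1]
        linarith)
      have hq2 : 2 * (max ‖x‖ ‖z‖ / ‖x - z‖) ≤ 32 * G (‖z - x‖ / a) := by
        have h3 := G_near (‖z - x‖ / a) (by rw [norm_sub_rev]; positivity) (by
          rw [div_le_iff₀ ha0, norm_sub_rev]
          linarith)
        rw [inv_div, norm_sub_rev z x] at h3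
        rw [norm_sub_rev z x]
        have h4 : max ‖x‖ ‖z‖ / ‖x - z‖ ≤ a / ‖x - z‖ := div_le_div_of_nonneg_right hMa hδ1.le
        linarith
      have hw2 := s2_w2 ‖x‖ ‖z‖ hx0 hz0 (mm i)
      calc GA i x z * ‖z‖ ^ mm i ≤
          (C * (min ‖x‖ ‖z‖ / max ‖x‖ ‖z‖) ^ mm i * √(max ‖x‖ ‖z‖ / ‖x - z‖)) *
            ‖z‖ ^ mm i := mul_le_mul_of_nonneg_right b1 (by positivity)
        _ = C * ((min ‖x‖ ‖z‖ / max ‖x‖ ‖z‖) ^ mm i * ‖z‖ ^ mm i) *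
            √(max ‖x‖ ‖z‖ / ‖x - z‖) := by ring
        _ ≤ C * ‖x‖ ^ mm i * (32 * G (‖z - x‖ / a)) :=
          mul_le_mul (mul_le_mul_of_nonneg_left hw2 hC.le) (hq.trans hq2) (Real.sqrt_nonneg _)
            (by positivity)
        _ = A * G (‖z - x‖ / a) := by rw [hA]; ring
    · intro z
      exact mul_nonneg hA0 (hG1 z)

end LEP.Ker
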