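import Pool.Agent.Helper61.LE.Ker

open MeasureTheory Set Filter Topology

noncomputable section

namespace LEP.Ker

lemma s6_ratio (X Y Z : ℝ) (hX : 0 < X) (hY : 0 < Y) (hZ : 0 < Z) (hYX : Y ≤ X) :
    (min X Z / max X Z) * (min Z Y / max Z Y) ≤ (Y / X) * (min 1 (X / Z)) ^ 2 := by
  rcases le_total X Z with h | h
  · rw [min_eq_left h, max_eq_right h, min_eq_right (hYX.trans h), max_eq_left (hYX.trans h),
      min_eq_right ((div_le_one hZ).mpr h)]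
    apply le_of_eq
    field_simp
  · rw [min_eq_right h, max_eq_left h, min_eq_left ((one_le_div hZ).mpr h), one_pow, mul_one]
    rcases le_total Y Z with h' | h'
    · rw [min_eq_right h', max_eq_left h']
      apply le_of_eq
      field_simp
    · rw [min_eq_left h', max_eq_right h', div_mul_div_comm, div_le_div_iff₀ (by positivity) hX]
      nlinarith [mul_le_mul h' h' hZ.le hY.le, mul_pos hX hY]

theorem st_S6 (h0 : ST_SEC0) : ST_S6 := by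
  obtain ⟨C, hC, hpt⟩ := pt h0
  have hCG := CG_nonneg
  refine ⟨100 * C ^ 2 * CG + 1, by positivity, ?_⟩
  intro i x hx y hy hyx
  have hx0 : 0 < ‖x‖ := norm_pos_iff.mpr hx.1
  have hy0 : 0 < ‖y‖ := norm_pos_iff.mpr hy.1
  obtain ⟨A, hA⟩ : ∃ A, A = C ^ 2 * (‖y‖ / ‖x‖) ^ mm i * 50 := ⟨_, rfl⟩
  have hA0 : 0 ≤ A := by rw [hA]; positivity
  obtain ⟨k1, k2⟩ := ker x ‖x‖ hx0
  obtain ⟨k3, k4⟩ := ker y ‖x‖ hx0
  have hG1 : ∀ z : ℂ, 0 ≤ G (‖z - x‖ / ‖x‖) := fun z => G_nonneg (by positivity)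
  have hG2 : ∀ z : ℂ, 0 ≤ G (‖z - y‖ / ‖x‖) := fun z => G_nonneg (by positivity)
  have hmain := int_le (Arm i) (meas_Arm i) (fun z => GA i x z * GA i z y)
    (fun z => A * (G (‖z - x‖ / ‖x‖) + G (‖z - y‖ / ‖x‖))) ?_ ?_ ?_ ((k1.add k3).const_mul A) ?_
  · refine ⟨hmain.1, hmain.2.trans ?_⟩
    have e1 : ∫ z : ℂ, A * (G (‖z - x‖ / ‖x‖) + G (‖z - y‖ / ‖x‖)) =
        A * (2 * (‖x‖ ^ 2 * CG)) := by
      rw [integral_const_mul, integral_add k1 k3, k2, k4]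
      ring
    rw [e1, hA]
    have h1 : 0 ≤ ‖x‖ ^ 2 * (‖y‖ / ‖x‖) ^ mm i := by positivity
    calc C ^ 2 * (‖y‖ / ‖x‖) ^ mm i * 50 * (2 * (‖x‖ ^ 2 * CG)) =
        (100 * C ^ 2 * CG) * (‖x‖ ^ 2 * (‖y‖ / ‖x‖) ^ mm i) := by ring
      _ ≤ (100 * C ^ 2 * CG + 1) * (‖x‖ ^ 2 * (‖y‖ / ‖x‖) ^ mm i) :=
        mul_le_mul_of_nonneg_right (by linarith) h1
      _ = (100 * C ^ 2 * CG + 1) * ‖x‖ ^ 2 * (‖y‖ / ‖x‖) ^ mm i := by ring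
  · have h1 : Measurable (fun z => GA i z y) := by
      unfold GA pw
      fun_prop
    exact ((meas_GA i x).mul h1).aestronglyMeasurable
  · intro z hz
    exact mul_nonneg (h0.2.2.1 i x hx z hz).1 (h0.2.2.1 i z hz y hy).1
  · intro z hz
    have hz0 : 0 < ‖z‖ := norm_pos_iff.mpr hz.1
    have hrhs : 0 ≤ A * (G (‖z - x‖ / ‖x‖) + G (‖z - y‖ / ‖x‖)) :=
      mul_nonneg hA0 (add_nonneg (hG1 z) (hG2 z))
    by_cases hzx : z = x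
    · have : GA i x z * GA i z y = 0 := by rw [hzx, GA_self, zero_mul]
      simp only [this]
      exact hrhs
    by_cases hzy : z = y
    · have : GA i x z * GA i z y = 0 := by rw [hzy, GA_self, mul_zero]
      simp only [this]
      exact hrhs
    have b1 := hpt i x hx z hz (Ne.symm hzx)
    have b2 := hpt i z hz y hy hzy
    have n1 := (h0.2.2.1 i z hz y hy).1
    have m1 := maj x z ‖x‖ hx0 le_rfl hzx
    have m2 := maj y z ‖x‖ hx0 hyx hzy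
    have hδ1 : 0 < ‖x - z‖ := norm_pos_iff.mpr (sub_ne_zero.mpr (Ne.symm hzx))
    have hδ2 : 0 < ‖y - z‖ := norm_pos_iff.mpr (sub_ne_zero.mpr (Ne.symm hzy))
    have hMx : 0 < max ‖x‖ ‖z‖ := lt_max_of_lt_left hx0
    have hMy : 0 < max ‖z‖ ‖y‖ := lt_max_of_lt_left hz0
    have hmx : 0 < min ‖x‖ ‖z‖ := lt_min hx0 hz0
    have hmy : 0 < min ‖z‖ ‖y‖ := lt_min hz0 hy0
    obtain ⟨μ, hμ⟩ : ∃ μ, μ = min 1 (‖x‖ / ‖z‖) := ⟨_, rfl⟩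
    have hμ0 : 0 < μ := by rw [hμ]; exact lt_min one_pos (by positivity)
    have hμ1 : μ ≤ 1 := by rw [hμ]; exact min_le_left _ _
    have hr := s6_ratio ‖x‖ ‖y‖ ‖z‖ hx0 hy0 hz0 hyx
    rw [← hμ] at m1 m2 hr
    have hrm : (min ‖x‖ ‖z‖ / max ‖x‖ ‖z‖) ^ mm i * (min ‖z‖ ‖y‖ / max ‖z‖ ‖y‖) ^ mm i ≤
        (‖y‖ / ‖x‖) ^ mm i * μ ^ 3 := by
      rw [← mul_pow]
      refine (pow_le_pow_left₀ (by positivity) hr _).trans ?_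
      rw [mul_pow]
      refine mul_le_mul_of_nonneg_left ?_ (by positivity)
      rw [← pow_mul]
      exact pow_le_pow_of_le_one hμ0.le hμ1 (by have := mm_three i; omega)
    have hsq : √(max ‖x‖ ‖z‖ / ‖x - z‖) * √(max ‖z‖ ‖y‖ / ‖z - y‖) ≤
        (max ‖x‖ ‖z‖ / ‖x - z‖ + max ‖x‖ ‖z‖ / ‖y - z‖) / 2 := by
      have e1 : √(max ‖z‖ ‖y‖ / ‖z - y‖) ≤ √(max ‖x‖ ‖z‖ / ‖y - z‖) := by
        apply Real.sqrt_le_sqrt
        rw [norm_sub_rev z y]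
        apply div_le_div_of_nonneg_right _ hδ2.le
        exact max_le (le_max_right _ _) (hyx.trans (le_max_left _ _))
      have e2 : 0 ≤ max ‖x‖ ‖z‖ / ‖x - z‖ := by positivity
      have e3 : 0 ≤ max ‖x‖ ‖z‖ / ‖y - z‖ := by positivity
      have e4 := Real.sqrt_nonneg (max ‖x‖ ‖z‖ / ‖x - z‖)
      have e5 : √(max ‖x‖ ‖z‖ / ‖x - z‖) * √(max ‖z‖ ‖y‖ / ‖z - y‖) ≤
          √(max ‖x‖ ‖z‖ / ‖x - z‖) * √(max ‖x‖ ‖z‖ / ‖y - z‖) :=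
        mul_le_mul_of_nonneg_left e1 e4
      have e6 := two_mul_le_add_sq (√(max ‖x‖ ‖z‖ / ‖x - z‖)) (√(max ‖x‖ ‖z‖ / ‖y - z‖))
      rw [Real.sq_sqrt e2, Real.sq_sqrt e3] at e6
      linarith
    have hprod : GA i x z * GA i z y ≤
        (C * (min ‖x‖ ‖z‖ / max ‖x‖ ‖z‖) ^ mm i * √(max ‖x‖ ‖z‖ / ‖x - z‖)) *
        (C * (min ‖z‖ ‖y‖ / max ‖z‖ ‖y‖) ^ mm i * √(max ‖z‖ ‖y‖ / ‖z - y‖)) :=
      mul_le_mul b1 b2 n1 (by positivity)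
    calc GA i x z * GA i z y ≤
        (C * (min ‖x‖ ‖z‖ / max ‖x‖ ‖z‖) ^ mm i * √(max ‖x‖ ‖z‖ / ‖x - z‖)) *
        (C * (min ‖z‖ ‖y‖ / max ‖z‖ ‖y‖) ^ mm i * √(max ‖z‖ ‖y‖ / ‖z - y‖)) := hprod
      _ = C ^ 2 * ((min ‖x‖ ‖z‖ / max ‖x‖ ‖z‖) ^ mm i * (min ‖z‖ ‖y‖ / max ‖z‖ ‖y‖) ^ mm i) *
          (√(max ‖x‖ ‖z‖ / ‖x - z‖) * √(max ‖z‖ ‖y‖ / ‖z - y‖)) := by ring
      _ ≤ C ^ 2 * ((‖y‖ / ‖x‖) ^ mm i * μ ^ 3) *
          ((max ‖x‖ ‖z‖ / ‖x - z‖ + max ‖x‖ ‖z‖ / ‖y - z‖) / 2) :=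
        mul_le_mul (mul_le_mul_of_nonneg_left hrm (by positivity)) hsq (by positivity)
          (by positivity)
      _ = C ^ 2 * (‖y‖ / ‖x‖) ^ mm i / 2 * (μ ^ 3 * (max ‖x‖ ‖z‖ / ‖x - z‖) +
          μ ^ 3 * (max ‖x‖ ‖z‖ / ‖y - z‖)) := by ring
      _ ≤ C ^ 2 * (‖y‖ / ‖x‖) ^ mm i / 2 * (100 * G (‖z - x‖ / ‖x‖) +
          100 * G (‖z - y‖ / ‖x‖)) :=
        mul_le_mul_of_nonneg_left (add_le_add m1 m2) (by positivity)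
      _ = A * (G (‖z - x‖ / ‖x‖) + G (‖z - y‖ / ‖x‖)) := by rw [hA]; ring
  · intro z
    exact mul_nonneg hA0 (add_nonneg (hG1 z) (hG2 z))

end LEP.Ker
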