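import Pool.Agent.Helper14.LE.Stmts

/-! Kernel estimates for the sector Green functions -/

open MeasureTheory Set Filter Topology

noncomputable section

namespace LEP.Ker

/-- polar form -/
lemma polar (x : ℂ) (α : ℝ) : Complex.exp (-(α : ℂ) * Complex.I) * x =
    (‖x‖ : ℂ) * Complex.exp (((Complex.arg x - α : ℝ) : ℂ) * Complex.I) := by
  conv_lhs => rw [← Complex.norm_mul_exp_arg_mul_I x]
  rw [mul_left_comm, ← Complex.exp_add]
  congr 2
  push_cast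
  ring

/-- lower bound for differences of powers inside a sector of opening `π / m` -/
lemma pow_sub_lower (m : ℕ) (hm : 1 ≤ m) (r s a b : ℝ) (hr : 0 ≤ r) (hs : 0 ≤ s)
    (hab : |a - b| ≤ Real.pi / m) :
    Real.sin (Real.pi / (2 * m)) * max r s ^ (m - 1) *
      ‖(r : ℂ) * Complex.exp ((a : ℂ) * Complex.I) - (s : ℂ) * Complex.exp ((b : ℂ) * Complex.I)‖ ≤
    ‖((r : ℂ) * Complex.exp ((a : ℂ) * Complex.I)) ^ m -
      ((s : ℂ) * Complex.exp ((b : ℂ) * Complex.I)) ^ m‖ := by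
  set u : ℂ := (r : ℂ) * Complex.exp ((a : ℂ) * Complex.I) with hu
  set w : ℂ := (s : ℂ) * Complex.exp ((b : ℂ) * Complex.I) with hw
  rw [← Commute.geom_sum₂_mul (Commute.all u w) m, norm_mul]
  refine mul_le_mul_of_nonneg_right ?_ (norm_nonneg _)
  have hm0 : (0 : ℝ) < m := by exact_mod_cast hm
  have hpi := Real.pi_pos
  have hc : 0 ≤ Real.sin (Real.pi / (2 * m)) := by
    apply Real.sin_nonneg_of_nonneg_of_le_pi (by positivity)
    rw [div_le_iff₀ (by positivity)]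
    have : (1 : ℝ) ≤ m := by exact_mod_cast hm
    nlinarith
  obtain ⟨β, hβ⟩ : ∃ β : ℝ, β = (m - 1) * (a + b) / 2 := ⟨_, rfl⟩
  have hE : ‖Complex.exp (((-β : ℝ) : ℂ) * Complex.I)‖ = 1 := Complex.norm_exp_ofReal_mul_I _
  have key : ∀ j ∈ Finset.range m, r ^ j * s ^ (m - 1 - j) * Real.sin (Real.pi / (2 * m)) ≤
      (u ^ j * w ^ (m - 1 - j) * Complex.exp (((-β : ℝ) : ℂ) * Complex.I)).re := by
    intro j hj
    have hj' : j < m := Finset.mem_range.mp hj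
    obtain ⟨k, hk⟩ : ∃ k, k = m - 1 - j := ⟨_, rfl⟩
    have hjk : (j : ℝ) + k = m - 1 := by
      have : j + k + 1 = m := by omega
      have h2 : ((j + k + 1 : ℕ) : ℝ) = m := by rw [this]
      push_cast at h2
      linarith
    have e1 : u ^ j * w ^ (m - 1 - j) * Complex.exp (((-β : ℝ) : ℂ) * Complex.I) =
        ((r ^ j * s ^ k : ℝ) : ℂ) *
          Complex.exp (((((j : ℝ) - k) * (a - b) / 2 : ℝ) : ℂ) * Complex.I) := by
      rw [hu, hw, ← hk, mul_pow, mul_pow, ← Complex.exp_nat_mul, ← Complex.exp_nat_mul]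
      have e2 : (r : ℂ) ^ j * Complex.exp ((j : ℂ) * ((a : ℂ) * Complex.I)) *
          ((s : ℂ) ^ k * Complex.exp ((k : ℂ) * ((b : ℂ) * Complex.I))) *
          Complex.exp (((-β : ℝ) : ℂ) * Complex.I) =
          ((r : ℂ) ^ j * (s : ℂ) ^ k) * (Complex.exp ((j : ℂ) * ((a : ℂ) * Complex.I)) *
            Complex.exp ((k : ℂ) * ((b : ℂ) * Complex.I)) *
            Complex.exp (((-β : ℝ) : ℂ) * Complex.I)) := by ring
      rw [e2, ← Complex.exp_add, ← Complex.exp_add]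
      push_cast
      congr 2
      have hβ' : (β : ℂ) = ((j : ℂ) + k) * (a + b) / 2 := by
        rw [hβ, ← hjk]
        push_cast
        ring
      rw [hβ']
      ring
    rw [e1, Complex.re_ofReal_mul, Complex.exp_ofReal_mul_I_re, ← hk]
    refine mul_le_mul_of_nonneg_left ?_ (by positivity)
    have h1 : |((j : ℝ) - k) * (a - b) / 2| ≤ Real.pi / 2 - Real.pi / (2 * m) := by
      rw [abs_div, abs_mul, abs_two]
      have h2 : |(j : ℝ) - k| ≤ m - 1 := by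
        rw [abs_le]
        have hj0 : (0 : ℝ) ≤ j := Nat.cast_nonneg j
        have hk0 : (0 : ℝ) ≤ k := Nat.cast_nonneg k
        constructor <;> linarith
      have h3 : |(j : ℝ) - k| * |a - b| ≤ (m - 1) * (Real.pi / m) :=
        mul_le_mul h2 hab (abs_nonneg _) (by linarith [abs_nonneg ((j : ℝ) - k)])
      have h4 : (m - 1) * (Real.pi / m) / 2 = Real.pi / 2 - Real.pi / (2 * m) := by
        field_simp
      linarith
    have h5 : Real.cos (Real.pi / 2 - Real.pi / (2 * m)) ≤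
        Real.cos |((j : ℝ) - k) * (a - b) / 2| := by
      apply Real.cos_le_cos_of_nonneg_of_le_pi (abs_nonneg _) _ h1
      have : 0 < Real.pi / (2 * m) := by positivity
      linarith
    rw [Real.cos_pi_div_two_sub, Real.cos_abs] at h5
    exact h5
  have h1 : ‖∑ i ∈ Finset.range m, u ^ i * w ^ (m - 1 - i)‖ =
      ‖(∑ i ∈ Finset.range m, u ^ i * w ^ (m - 1 - i)) *
        Complex.exp (((-β : ℝ) : ℂ) * Complex.I)‖ := by
    rw [norm_mul, hE, mul_one]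
  rw [h1, Finset.sum_mul]
  refine le_trans ?_ (Complex.re_le_norm _)
  rw [Complex.re_sum]
  refine le_trans ?_ (Finset.sum_le_sum key)
  have hnn : ∀ j ∈ Finset.range m, 0 ≤ r ^ j * s ^ (m - 1 - j) * Real.sin (Real.pi / (2 * m)) :=
    fun j _ => by positivity
  rcases le_total s r with h | h
  · rw [max_eq_left h]
    have := Finset.single_le_sum hnn (Finset.mem_range.mpr (show m - 1 < m by omega))
    rw [Nat.sub_self, pow_zero, mul_one] at this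
    linarith
  · rw [max_eq_right h]
    have := Finset.single_le_sum hnn (Finset.mem_range.mpr (show 0 < m by omega))
    rw [Nat.sub_zero, pow_zero, one_mul] at this
    linarith

lemma mm_pos (i : Fin 2) : 1 ≤ mm i := by
  fin_cases i <;> simp [mm]

lemma mm_three (i : Fin 2) : 3 ≤ mm i := by
  fin_cases i <;> simp [mm]

/-- lower bound of `|X - Y|` -/
lemma pw_sub_lower (i : Fin 2) (x y : ℂ) (hx : x ∈ Arm i) (hy : y ∈ Arm i) :
    Real.sin (Real.pi / (2 * mm i)) * max ‖x‖ ‖y‖ ^ (mm i - 1) * ‖x - y‖ ≤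
      ‖pw i x - pw i y‖ := by
  unfold pw
  have h1 : ‖x - y‖ = ‖Complex.exp (-(al i : ℂ) * Complex.I) * x -
      Complex.exp (-(al i : ℂ) * Complex.I) * y‖ := by
    rw [← mul_sub, norm_mul]
    have : ‖Complex.exp (-(al i : ℂ) * Complex.I)‖ = 1 := by
      rw [← Complex.ofReal_neg]
      exact Complex.norm_exp_ofReal_mul_I _
    rw [this, one_mul]
  rw [h1, polar, polar]
  apply pow_sub_lower (mm i) (mm_pos i) _ _ _ _ (norm_nonneg _) (norm_nonneg _)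
  have hx2 := hx.2
  have hy2 := hy.2
  unfold be at hx2 hy2
  rw [abs_le]
  constructor <;> linarith [hx2.1, hx2.2, hy2.1, hy2.2]

lemma norm_pw (i : Fin 2) (x : ℂ) : ‖pw i x‖ = ‖x‖ ^ mm i := by
  unfold pw
  rw [norm_pow, norm_mul]
  have : ‖Complex.exp (-(al i : ℂ) * Complex.I)‖ = 1 := by
    rw [← Complex.ofReal_neg]
    exact Complex.norm_exp_ofReal_mul_I _
  rw [this, one_mul]

lemma sin_pos (i : Fin 2) : 0 < Real.sin (Real.pi / (2 * mm i)) := by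
  have hm : (1 : ℝ) ≤ mm i := by exact_mod_cast mm_pos i
  have hpi := Real.pi_pos
  apply Real.sin_pos_of_pos_of_lt_pi (by positivity)
  rw [div_lt_iff₀ (by positivity)]
  nlinarith

lemma log_sqrt (B q : ℝ) (hB : 0 < B) (hq : 0 < q) :
    Real.log (B * q ^ 2) ≤ 4 * √(√B) * √q := by
  have hz : 0 < √(√B) * √q := by positivity
  have h1 : (√(√B) * √q) ^ 4 = B * q ^ 2 := by
    have e1 : √(√B) ^ 2 = √B := Real.sq_sqrt (Real.sqrt_nonneg _)
    have e2 : √B ^ 2 = B := Real.sq_sqrt hB.le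
    have e3 : √q ^ 2 = q := Real.sq_sqrt hq.le
    calc (√(√B) * √q) ^ 4 = ((√(√B) ^ 2) ^ 2) * (√q ^ 2) ^ 2 := by ring
      _ = B * q ^ 2 := by rw [e1, e2, e3]
  rw [← h1, Real.log_pow]
  have h2 := Real.log_le_self hz.le
  push_cast
  linarith

/-- near bound -/
lemma near (h0 : ST_SEC0) (i : Fin 2) : ∃ C : ℝ, 0 < C ∧ ∀ x ∈ Arm i, ∀ y ∈ Arm i, x ≠ y →
    GA i x y ≤ C * √(max ‖x‖ ‖y‖ / ‖x - y‖) := by
  obtain ⟨c, hc⟩ : ∃ c, c = Real.sin (Real.pi / (2 * mm i)) := ⟨_, rfl⟩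
  have hc0 : 0 < c := by rw [hc]; exact sin_pos i
  obtain ⟨B, hB⟩ : ∃ B : ℝ, B = 4 + 4 / c ^ 2 := ⟨_, rfl⟩
  have hB0 : 0 < B := by rw [hB]; positivity
  refine ⟨(1 / (4 * Real.pi)) * (4 * √(√B)), by positivity, ?_⟩
  intro x hx y hy hxy
  have hlow := pw_sub_lower i x y hx hy
  rw [← hc] at hlow
  have hδ : 0 < ‖x - y‖ := norm_pos_iff.mpr (sub_ne_zero.mpr hxy)
  have hx0 : 0 < ‖x‖ := norm_pos_iff.mpr hx.1
  have hM : 0 < max ‖x‖ ‖y‖ := lt_max_of_lt_left hx0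
  have hδM : ‖x - y‖ ≤ 2 * max ‖x‖ ‖y‖ := by
    have := norm_sub_le x y
    linarith [le_max_left ‖x‖ ‖y‖, le_max_right ‖x‖ ‖y‖]
  obtain ⟨m, hm⟩ : ∃ m, m + 1 = mm i := ⟨mm i - 1, by have := mm_pos i; omega⟩
  rw [← hm, Nat.add_sub_cancel] at hlow
  have hnx := norm_pw i x
  have hny := norm_pw i y
  rw [← hm] at hnx hny
  obtain ⟨M, hMd⟩ : ∃ M, M = max ‖x‖ ‖y‖ := ⟨_, rfl⟩
  have hxM : ‖x‖ ≤ M := by rw [hMd]; exact le_max_left _ _
  have hyM : ‖y‖ ≤ M := by rw [hMd]; exact le_max_right _ _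
  rw [← hMd] at hlow hM hδM ⊢
  obtain ⟨δ, hδd⟩ : ∃ δ, δ = ‖x - y‖ := ⟨_, rfl⟩
  rw [← hδd] at hlow hδ hδM ⊢
  have hD : 0 < c * M ^ m * δ := by positivity
  have hD2 : (c * M ^ m * δ) ^ 2 ≤ ‖pw i x - pw i y‖ ^ 2 := pow_le_pow_left₀ hD.le hlow 2
  have hnum : 4 * (pw i x).im * (pw i y).im ≤ 4 * (M ^ (m + 1) * M ^ (m + 1)) := by
    have h1 : |(pw i x).im| ≤ M ^ (m + 1) :=
      (Complex.abs_im_le_norm _).trans (by rw [hnx]; exact pow_le_pow_left₀ (norm_nonneg _) hxM _)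
    have h2 : |(pw i y).im| ≤ M ^ (m + 1) :=
      (Complex.abs_im_le_norm _).trans (by rw [hny]; exact pow_le_pow_left₀ (norm_nonneg _) hyM _)
    have h3 : |(pw i x).im| * |(pw i y).im| ≤ M ^ (m + 1) * M ^ (m + 1) :=
      mul_le_mul h1 h2 (abs_nonneg _) (by positivity)
    have h4 := le_abs_self ((pw i x).im * (pw i y).im)
    rw [abs_mul] at h4
    linarith
  have hT : 4 * (pw i x).im * (pw i y).im / ‖pw i x - pw i y‖ ^ 2 ≤ 4 / c ^ 2 * (M / δ) ^ 2 := by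
    have h1 : 4 * (pw i x).im * (pw i y).im / ‖pw i x - pw i y‖ ^ 2 ≤
        4 * (M ^ (m + 1) * M ^ (m + 1)) / ‖pw i x - pw i y‖ ^ 2 :=
      div_le_div_of_nonneg_right hnum (by positivity)
    have h2 : 4 * (M ^ (m + 1) * M ^ (m + 1)) / ‖pw i x - pw i y‖ ^ 2 ≤
        4 * (M ^ (m + 1) * M ^ (m + 1)) / (c * M ^ m * δ) ^ 2 :=
      div_le_div_of_nonneg_left (by positivity) (by positivity) hD2
    have h3 : 4 * (M ^ (m + 1) * M ^ (m + 1)) / (c * M ^ m * δ) ^ 2 = 4 / c ^ 2 * (M / δ) ^ 2 := by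
      field_simp
      ring
    linarith
  obtain ⟨q, hq⟩ : ∃ q, q = M / δ := ⟨_, rfl⟩
  have hq0 : 0 < q := by rw [hq]; positivity
  have hq1 : 1 / 2 ≤ q := by
    rw [hq, le_div_iff₀ hδ]
    linarith
  rw [← hq] at hT ⊢
  unfold GA
  have hlog : Real.log (1 + 4 * (pw i x).im * (pw i y).im / ‖pw i x - pw i y‖ ^ 2) ≤
      4 * √(√B) * √q := by
    have h0' : 1 + 4 * (pw i x).im * (pw i y).im / ‖pw i x - pw i y‖ ^ 2 ≤ B * q ^ 2 := by
      have : 1 / 4 ≤ q ^ 2 := by nlinarith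
      rw [hB]
      linarith
    have hX := (h0.2.1 i x hx).1
    have hY := (h0.2.1 i y hy).1
    have hpos : 0 < 1 + 4 * (pw i x).im * (pw i y).im / ‖pw i x - pw i y‖ ^ 2 := by positivity
    exact (Real.log_le_log hpos h0').trans (log_sqrt B q hB0 hq0)
  calc (1 / (4 * Real.pi)) * Real.log (1 + 4 * (pw i x).im * (pw i y).im /
        ‖pw i x - pw i y‖ ^ 2) ≤ (1 / (4 * Real.pi)) * (4 * √(√B) * √q) :=
      mul_le_mul_of_nonneg_left hlog (by positivity)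
    _ = (1 / (4 * Real.pi)) * (4 * √(√B)) * √q := by ring

/-- the main pointwise bound -/
lemma pt (h0 : ST_SEC0) : ∃ C : ℝ, 0 < C ∧ ∀ i, ∀ x ∈ Arm i, ∀ y ∈ Arm i, x ≠ y →
    GA i x y ≤ C * (min ‖x‖ ‖y‖ / max ‖x‖ ‖y‖) ^ mm i * √(max ‖x‖ ‖y‖ / ‖x - y‖) := by
  obtain ⟨C0, hC0, hn0⟩ := near h0 0
  obtain ⟨C1, hC1, hn1⟩ := near h0 1
  obtain ⟨C2, hC2, hfar⟩ := h0.2.2.2.2.2.2
  have hsymm := h0.2.2.1
  refine ⟨2 ^ 9 * (C0 + C1) + 2 * C2, by positivity, ?_⟩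
  intro i x hx y hy hxy
  have hnear : GA i x y ≤ (C0 + C1) * √(max ‖x‖ ‖y‖ / ‖x - y‖) := by
    have hsq := Real.sqrt_nonneg (max ‖x‖ ‖y‖ / ‖x - y‖)
    have hi : i = 0 ∨ i = 1 := by fin_cases i <;> simp
    rcases hi with rfl | rfl
    · have := hn0 x hx y hy hxy
      have h2 : 0 ≤ C1 * √(max ‖x‖ ‖y‖ / ‖x - y‖) := by positivity
      linarith
    · have := hn1 x hx y hy hxy
      have h2 : 0 ≤ C0 * √(max ‖x‖ ‖y‖ / ‖x - y‖) := by positivity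
      linarith
  have hx0 : 0 < ‖x‖ := norm_pos_iff.mpr hx.1
  have hy0 : 0 < ‖y‖ := norm_pos_iff.mpr hy.1
  have hδ : 0 < ‖x - y‖ := norm_pos_iff.mpr (sub_ne_zero.mpr hxy)
  have hM : 0 < max ‖x‖ ‖y‖ := lt_max_of_lt_left hx0
  have hmn : 0 < min ‖x‖ ‖y‖ := lt_min hx0 hy0
  have hδM : ‖x - y‖ ≤ 2 * max ‖x‖ ‖y‖ := by
    have := norm_sub_le x y
    linarith [le_max_left ‖x‖ ‖y‖, le_max_right ‖x‖ ‖y‖]
  have hq1 : 1 / 2 ≤ √(max ‖x‖ ‖y‖ / ‖x - y‖) := by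
    apply Real.le_sqrt_of_sq_le
    rw [le_div_iff₀ hδ]
    linarith
  have hq0 := Real.sqrt_nonneg (max ‖x‖ ‖y‖ / ‖x - y‖)
  have hp0 : 0 < (min ‖x‖ ‖y‖ / max ‖x‖ ‖y‖) ^ mm i := by positivity
  by_cases hfarcase : 2 * min ‖x‖ ‖y‖ ≤ max ‖x‖ ‖y‖
  · have hf : GA i x y ≤ C2 * (min ‖x‖ ‖y‖ / max ‖x‖ ‖y‖) ^ mm i := by
      rcases le_total ‖y‖ ‖x‖ with h | h
      · rw [min_eq_right h, max_eq_left h] at *
        exact hfar i x hx y hy hfarcase
      · rw [min_eq_left h, max_eq_right h] at *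
        rw [(hsymm i x hx y hy).2]
        exact hfar i y hy x hx hfarcase
    calc GA i x y ≤ C2 * (min ‖x‖ ‖y‖ / max ‖x‖ ‖y‖) ^ mm i := hf
      _ = 2 * C2 * (min ‖x‖ ‖y‖ / max ‖x‖ ‖y‖) ^ mm i * (1 / 2) := by ring
      _ ≤ 2 * C2 * (min ‖x‖ ‖y‖ / max ‖x‖ ‖y‖) ^ mm i * √(max ‖x‖ ‖y‖ / ‖x - y‖) :=
        mul_le_mul_of_nonneg_left hq1 (by positivity)
      _ ≤ (2 ^ 9 * (C0 + C1) + 2 * C2) * (min ‖x‖ ‖y‖ / max ‖x‖ ‖y‖) ^ mm i *
          √(max ‖x‖ ‖y‖ / ‖x - y‖) := by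
        refine mul_le_mul_of_nonneg_right (mul_le_mul_of_nonneg_right ?_ hp0.le) hq0
        have : 0 ≤ 2 ^ 9 * (C0 + C1) := by positivity
        linarith
  · have h1 : 1 / 2 ≤ min ‖x‖ ‖y‖ / max ‖x‖ ‖y‖ := by
      rw [le_div_iff₀ hM]
      linarith [not_le.mp hfarcase]
    have h2 : (1 / 2 : ℝ) ^ 9 ≤ (min ‖x‖ ‖y‖ / max ‖x‖ ‖y‖) ^ mm i := by
      have h3 : (1 / 2 : ℝ) ^ mm i ≤ (min ‖x‖ ‖y‖ / max ‖x‖ ‖y‖) ^ mm i :=
        pow_le_pow_left₀ (by norm_num) h1 _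
      have h4 : (1 / 2 : ℝ) ^ 9 ≤ (1 / 2 : ℝ) ^ mm i := by
        apply pow_le_pow_of_le_one (by norm_num) (by norm_num)
        fin_cases i <;> simp [mm]
      linarith
    calc GA i x y ≤ (C0 + C1) * √(max ‖x‖ ‖y‖ / ‖x - y‖) := hnear
      _ = 2 ^ 9 * (C0 + C1) * (1 / 2) ^ 9 * √(max ‖x‖ ‖y‖ / ‖x - y‖) := by ring
      _ ≤ 2 ^ 9 * (C0 + C1) * (min ‖x‖ ‖y‖ / max ‖x‖ ‖y‖) ^ mm i *
          √(max ‖x‖ ‖y‖ / ‖x - y‖) :=
        mul_le_mul_of_nonneg_right (mul_le_mul_of_nonneg_left h2 (by positivity)) hq0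
      _ ≤ (2 ^ 9 * (C0 + C1) + 2 * C2) * (min ‖x‖ ‖y‖ / max ‖x‖ ‖y‖) ^ mm i *
          √(max ‖x‖ ‖y‖ / ‖x - y‖) := by
        refine mul_le_mul_of_nonneg_right (mul_le_mul_of_nonneg_right ?_ hp0.le) hq0
        linarith

/-! ### the integrable kernel -/

/-- radial majorant -/
def G (t : ℝ) : ℝ := t⁻¹ * ((1 + t) ^ 2)⁻¹

lemma G_nonneg {t : ℝ} (ht : 0 ≤ t) : 0 ≤ G t := by
  unfold G
  positivity

lemma G_integrable : Integrable (fun z : ℂ => G ‖z‖) := by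
  rw [integrable_fun_norm_addHaar volume (f := G)]
  have h1 : Integrable (fun x : ℝ => (1 + ‖x‖) ^ (-(2 : ℝ))) :=
    integrable_one_add_norm (by simp)
  refine (h1.integrableOn (s := Ioi 0)).congr_fun ?_ measurableSet_Ioi
  intro t ht
  have ht0 : (0 : ℝ) < t := ht
  simp only [Complex.finrank_real_complex, G, smul_eq_mul]
  rw [Real.norm_of_nonneg ht0.le, Real.rpow_neg (by positivity), Real.rpow_two]
  field_simp
  norm_num

/-- total mass -/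
def CG : ℝ := ∫ z : ℂ, G ‖z‖

lemma CG_nonneg : 0 ≤ CG := integral_nonneg fun z => G_nonneg (norm_nonneg z)

lemma ker (p : ℂ) (a : ℝ) (ha : 0 < a) :
    Integrable (fun z : ℂ => G (‖z - p‖ / a)) ∧ ∫ z : ℂ, G (‖z - p‖ / a) = a ^ 2 * CG := by
  have h1 : (fun z : ℂ => G (‖z - p‖ / a)) = fun z => (fun w : ℂ => G ‖a⁻¹ • w‖) (z - p) := by
    funext z
    simp only
    rw [norm_smul, Real.norm_of_nonneg (by positivity), div_eq_inv_mul]
  have h2 : Integrable (fun w : ℂ => G ‖a⁻¹ • w‖) :=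
    (integrable_comp_smul_iff volume (fun z : ℂ => G ‖z‖) (inv_ne_zero ha.ne')).mpr
      G_integrable
  constructor
  · rw [h1]
    exact h2.comp_sub_right p
  · rw [h1, integral_sub_right_eq_self (fun w : ℂ => G ‖a⁻¹ • w‖) p,
      Measure.integral_comp_inv_smul_of_nonneg volume (fun z : ℂ => G ‖z‖) ha.le]
    simp [CG]

lemma G_near (t : ℝ) (ht : 0 < t) (h3 : t ≤ 3) : t⁻¹ ≤ 16 * G t := by
  unfold G
  have : ((4 : ℝ) ^ 2)⁻¹ ≤ ((1 + t) ^ 2)⁻¹ := by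
    apply inv_anti₀ (by positivity)
    exact pow_le_pow_left₀ (by positivity) (by linarith) 2
  calc t⁻¹ = 16 * (t⁻¹ * ((4 : ℝ) ^ 2)⁻¹) := by ring
    _ ≤ 16 * (t⁻¹ * ((1 + t) ^ 2)⁻¹) := by
      refine mul_le_mul_of_nonneg_left (mul_le_mul_of_nonneg_left this (by positivity)) (by norm_num)

lemma G_far (t : ℝ) (h1 : 1 ≤ t) : (t⁻¹) ^ 3 ≤ 4 * G t := by
  unfold G
  have ht : 0 < t := by linarith
  have : ((2 * t) ^ 2)⁻¹ ≤ ((1 + t) ^ 2)⁻¹ := by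
    apply inv_anti₀ (by positivity)
    exact pow_le_pow_left₀ (by positivity) (by linarith) 2
  calc (t⁻¹) ^ 3 = 4 * (t⁻¹ * ((2 * t) ^ 2)⁻¹) := by field_simp; ring
    _ ≤ 4 * (t⁻¹ * ((1 + t) ^ 2)⁻¹) := by
      refine mul_le_mul_of_nonneg_left (mul_le_mul_of_nonneg_left this (by positivity)) (by norm_num)

/-- key majorant -/
lemma maj (p z : ℂ) (a : ℝ) (ha : 0 < a) (hp : ‖p‖ ≤ a) (hz : z ≠ p) :
    (min 1 (a / ‖z‖)) ^ 3 * (max a ‖z‖ / ‖p - z‖) ≤ 100 * G (‖z - p‖ / a) := by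
  have hδ : 0 < ‖z - p‖ := norm_pos_iff.mpr (sub_ne_zero.mpr hz)
  rw [norm_sub_rev p z]
  have hGn := G_nonneg (t := ‖z - p‖ / a) (by positivity)
  by_cases h2 : ‖z‖ ≤ 2 * a
  · have h3 : ‖z - p‖ / a ≤ 3 := by
      rw [div_le_iff₀ ha]
      have := norm_sub_le z p
      linarith
    have h4 := G_near (‖z - p‖ / a) (by positivity) h3
    have h5 : (min 1 (a / ‖z‖)) ^ 3 ≤ 1 :=
      pow_le_one₀ (by positivity) (min_le_left _ _)
    have h6 : max a ‖z‖ / ‖z - p‖ ≤ 2 * (‖z - p‖ / a)⁻¹ := by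
      rw [inv_div, mul_div_assoc']
      apply div_le_div_of_nonneg_right _ hδ.le
      exact max_le (by linarith) h2
    calc (min 1 (a / ‖z‖)) ^ 3 * (max a ‖z‖ / ‖z - p‖) ≤ 1 * (max a ‖z‖ / ‖z - p‖) :=
          mul_le_mul_of_nonneg_right h5 (by positivity)
      _ ≤ 100 * G (‖z - p‖ / a) := by linarith
  · have h2' : 2 * a < ‖z‖ := not_le.mp h2
    have hz0 : 0 < ‖z‖ := by linarith
    have h3 : ‖z‖ / 2 ≤ ‖z - p‖ := by
      have := norm_sub_norm_le z p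
      linarith
    have h3' : ‖z - p‖ ≤ 3 / 2 * ‖z‖ := by
      have := norm_sub_le z p
      linarith
    have h4 := G_far (‖z - p‖ / a) (by rw [le_div_iff₀ ha]; linarith)
    have h5 : min 1 (a / ‖z‖) ≤ 3 / 2 * (‖z - p‖ / a)⁻¹ := by
      refine (min_le_right _ _).trans ?_
      rw [inv_div, mul_div_assoc', div_le_div_iff₀ hz0 hδ]
      nlinarith
    have h6 : (min 1 (a / ‖z‖)) ^ 3 ≤ (3 / 2 * (‖z - p‖ / a)⁻¹) ^ 3 :=
      pow_le_pow_left₀ (by positivity) h5 3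
    have h7 : max a ‖z‖ / ‖z - p‖ ≤ 2 := by
      rw [div_le_iff₀ hδ, max_eq_right (by linarith)]
      linarith
    calc (min 1 (a / ‖z‖)) ^ 3 * (max a ‖z‖ / ‖z - p‖) ≤
          (3 / 2 * (‖z - p‖ / a)⁻¹) ^ 3 * 2 :=
          mul_le_mul h6 h7 (by positivity) (by positivity)
      _ = 27 / 4 * ((‖z - p‖ / a)⁻¹) ^ 3 := by ring
      _ ≤ 100 * G (‖z - p‖ / a) := by linarith

/-- integral comparison -/
lemma int_le (S : Set ℂ) (hS : MeasurableSet S) (f F : ℂ → ℝ)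
    (hf : AEStronglyMeasurable f (volume.restrict S)) (h0 : ∀ z ∈ S, 0 ≤ f z)
    (hfF : ∀ z ∈ S, f z ≤ F z) (hF : Integrable F) (hF0 : ∀ z, 0 ≤ F z) :
    IntegrableOn f S ∧ ∫ z in S, f z ≤ ∫ z, F z := by
  have h1 : IntegrableOn f S := by
    refine Integrable.mono' hF.integrableOn hf ?_
    refine (ae_restrict_iff' hS).mpr (Eventually.of_forall fun z hz => ?_)
    rw [Real.norm_of_nonneg (h0 z hz)]
    exact hfF z hz
  refine ⟨h1, ?_⟩
  calc ∫ z in S, f z ≤ ∫ z in S, F z := setIntegral_mono_on h1 hF.integrableOn hS hfF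
    _ ≤ ∫ z, F z := setIntegral_le_integral hF (Eventually.of_forall hF0)

lemma meas_Arm (i : Fin 2) : MeasurableSet (Arm i) := by
  have h1 : MeasurableSet {z : ℂ | z ≠ 0} := (measurableSet_singleton 0).compl
  have h2 : MeasurableSet {z : ℂ | al i < Complex.arg z} :=
    measurableSet_lt measurable_const Complex.measurable_arg
  have h3 : MeasurableSet {z : ℂ | Complex.arg z < be i} :=
    measurableSet_lt Complex.measurable_arg measurable_const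
  exact h1.inter (h2.inter h3)

lemma meas_ArmR (i : Fin 2) (ρ : ℝ) : MeasurableSet (ArmR i ρ) :=
  (meas_Arm i).inter (measurableSet_lt measurable_norm measurable_const)

lemma meas_GA (i : Fin 2) (x : ℂ) : Measurable (fun y => GA i x y) := by
  unfold GA pw
  fun_prop

lemma GA_self (i : Fin 2) (x : ℂ) : GA i x x = 0 := by
  unfold GA
  simp

end LEP.Ker
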